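import Pool.Agent.CMG.Stmts
import Mathlib.Analysis.InnerProductSpace.Spectrum

/-!
# Row PWN of squad CMG: Peter-Weyl from the convolution operator
-/

set_option autoImplicit false

open Set Topology MeasureTheory
open scoped BigOperators Pointwise InnerProductSpace

namespace Pool.Agent.CMG.H11

open Pool.Agent.LSG Pool.Agent.CMG

theorem pwn_inv {E : Type} [NormedAddCommGroup E] [InnerProductSpace ℂ E]
    {K : Type} [Group K] (r : K →* (E ≃ₗᵢ[ℂ] E)) (z : K) (x : E) : r z (r z⁻¹ x) = x := by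
  have h1 : (r z * r z⁻¹) = 1 := by rw [← map_mul, mul_inv_cancel, map_one]
  have h2 : (r z * r z⁻¹) x = (1 : E ≃ₗᵢ[ℂ] E) x := by rw [h1]
  exact h2

theorem pwn_mul {E : Type} [NormedAddCommGroup E] [InnerProductSpace ℂ E]
    {K : Type} [Group K] (r : K →* (E ≃ₗᵢ[ℂ] E)) (a b : K) (x : E) :
    r (a * b) x = r a (r b x) := by
  rw [map_mul]
  rfl

theorem pwn_one {E : Type} [NormedAddCommGroup E] [InnerProductSpace ℂ E]
    {K : Type} [Group K] (r : K →* (E ≃ₗᵢ[ℂ] E)) (x : E) :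
    r 1 x = x := by
  rw [map_one]
  rfl

/-- an eigenvector of the compact operator, for an eigenvalue which is not 0, that is moved -/
theorem pwn_eig {E : Type} [NormedAddCommGroup E] [InnerProductSpace ℂ E] [CompleteSpace E]
    {K : Type} [Group K] (r : K →* (E ≃ₗᵢ[ℂ] E)) (T : E →L[ℂ] E) (w : E) (g : K)
    (hs : IsSelfAdjoint T) (hc : IsCompactOperator T)
    (hcom : ∀ z v, r z (T v) = T (r z v)) (hg : r g (T w) ≠ T w) :
    ∃ c : ℂ, c ≠ 0 ∧ ∃ v : E, T v = c • v ∧ r g v ≠ v := by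
  by_contra hcon
  have hcon' : ∀ c : ℂ, c ≠ 0 → ∀ v : E, T v = c • v → r g v = v := by
    intro c hc0 v hv
    by_contra hne
    exact hcon ⟨c, hc0, v, hv, hne⟩
  have hsym := ContinuousLinearMap.isSelfAdjoint_iff_isSymmetric.mp hs
  have hmem : T (r g⁻¹ w - w) ∈
      (⨆ μ, Module.End.eigenspace (T : Module.End ℂ E) μ)ᗮ := by
    rw [← Submodule.iInf_orthogonal, Submodule.mem_iInf]
    intro c
    rw [Submodule.mem_orthogonal]
    intro v hv
    rw [Module.End.mem_eigenspace_iff] at hv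
    have hv' : T v = c • v := hv
    have h1 : ⟪v, T (r g⁻¹ w - w)⟫_ℂ = ⟪T v, r g⁻¹ w - w⟫_ℂ := (hsym v (r g⁻¹ w - w)).symm
    rw [h1, hv', inner_smul_left]
    by_cases hc0 : c = 0
    · rw [hc0, map_zero, zero_mul]
    · have h2 := hcon' c hc0 v hv'
      have h3 : ⟪v, r g⁻¹ w⟫_ℂ = ⟪v, w⟫_ℂ := by
        calc ⟪v, r g⁻¹ w⟫_ℂ = ⟪r g v, r g (r g⁻¹ w)⟫_ℂ := ((r g).inner_map_map _ _).symm
          _ = ⟪v, w⟫_ℂ := by rw [h2, pwn_inv]
      rw [inner_sub_right, h3, sub_self, mul_zero]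
  rw [ContinuousLinearMap.orthogonalComplement_iSup_eigenspaces_eq_bot hc hsym,
    Submodule.mem_bot] at hmem
  rw [map_sub, ← hcom, sub_eq_zero] at hmem
  apply hg
  have h4 : r g (r g⁻¹ (T w)) = r g (T w) := by rw [hmem]
  rw [pwn_inv] at h4
  exact h4.symm

theorem pwn (h : CnvStmt) : PwnStmt := by
  intro K _ _ _ _ _ g hg1
  obtain ⟨E, iE1, iE2, iE3, r, T, w, hcont, hs, hc, hcom, hg⟩ := h K g hg1
  obtain ⟨c, hc0, v, hv, hgv⟩ := pwn_eig r T w g hs hc hcom hg
  set V : Submodule ℂ E := Module.End.eigenspace (T : Module.End ℂ E) c with hV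
  have hfin : FiniteDimensional ℂ V := ContinuousLinearMap.finite_dimensional_eigenspace hc c hc0
  have hmemV : ∀ x : E, x ∈ V ↔ T x = c • x := by
    intro x
    rw [hV, Module.End.mem_eigenspace_iff]
    rfl
  have hinv : ∀ z : K, ∀ x ∈ V, r z x ∈ V := by
    intro z x hx
    rw [hmemV] at hx ⊢
    rw [← hcom, hx, map_smul]
  set b := stdOrthonormalBasis ℂ V with hb
  -- expansion of the elements of `V`
  have hexp : ∀ x ∈ V, x = ∑ k, ⟪(b k : E), x⟫_ℂ • (b k : E) := by
    intro x hx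
    have h1 := b.sum_repr' (⟨x, hx⟩ : V)
    have h2 := congrArg (fun y : V => (y : E)) h1
    simp only [Submodule.coe_sum, Submodule.coe_smul, Submodule.coe_inner] at h2
    exact h2.symm
  set M : K → Matrix (Fin (Module.finrank ℂ V)) (Fin (Module.finrank ℂ V)) ℂ :=
    fun z => Matrix.of fun i j => ⟪(b i : E), r z (b j : E)⟫_ℂ with hM
  have hMmul : ∀ a z : K, M (a * z) = M a * M z := by
    intro a z
    ext i j
    rw [Matrix.mul_apply]
    simp only [hM, Matrix.of_apply]
    rw [pwn_mul]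
    have h1 := hexp (r z (b j : E)) (hinv z _ (b j).2)
    have h2 : r a (r z (b j : E)) = ∑ k, ⟪(b k : E), r z (b j : E)⟫_ℂ • r a (b k : E) := by
      conv_lhs => rw [h1]
      rw [map_sum]
      refine Finset.sum_congr rfl fun k _ => ?_
      rw [map_smul]
    rw [h2, inner_sum]
    refine Finset.sum_congr rfl fun k _ => ?_
    rw [inner_smul_right, mul_comm]
  have hMone : M 1 = 1 := by
    ext i j
    simp only [hM, Matrix.of_apply]
    rw [pwn_one, ← Submodule.coe_inner, Matrix.one_apply]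
    exact orthonormal_iff_ite.mp b.orthonormal i j
  have hMstar : ∀ z : K, star (M z) = M z⁻¹ := by
    intro z
    ext i j
    rw [Matrix.star_apply]
    simp only [hM, Matrix.of_apply]
    calc star ⟪(b j : E), r z (b i : E)⟫_ℂ = ⟪r z (b i : E), (b j : E)⟫_ℂ :=
          inner_conj_symm _ _
      _ = ⟪r z (b i : E), r z (r z⁻¹ (b j : E))⟫_ℂ := by rw [pwn_inv]
      _ = ⟪(b i : E), r z⁻¹ (b j : E)⟫_ℂ := (r z).inner_map_map _ _
  have hU : ∀ z : K, M z ∈ Matrix.unitaryGroup (Fin (Module.finrank ℂ V)) ℂ := by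
    intro z
    rw [Matrix.mem_unitaryGroup_iff, hMstar, ← hMmul, mul_inv_cancel, hMone]
  refine ⟨Module.finrank ℂ V,
    { toFun := fun z => ⟨M z, hU z⟩
      map_one' := Subtype.ext hMone
      map_mul' := fun a z => Subtype.ext (hMmul a z) }, ?_, ?_⟩
  · refine Continuous.subtype_mk ?_ _
    refine continuous_matrix fun i j => ?_
    exact continuous_const.inner (hcont _)
  · intro hone
    have h1 : M g = 1 := congrArg Subtype.val hone
    apply hgv
    have hvV : v ∈ V := (hmemV v).mpr hv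
    have hbj : ∀ j, r g (b j : E) = (b j : E) := by
      intro j
      rw [hexp (r g (b j : E)) (hinv g _ (b j).2)]
      have h2 : ∀ k, ⟪(b k : E), r g (b j : E)⟫_ℂ = if k = j then 1 else 0 := by
        intro k
        have h3 := congrFun (congrFun h1 k) j
        simp only [hM, Matrix.of_apply] at h3
        rw [h3, Matrix.one_apply]
      rw [Finset.sum_congr rfl (fun k _ => by rw [h2 k])]
      simp
    rw [hexp v hvV, map_sum]
    refine Finset.sum_congr rfl fun k _ => ?_
    rw [map_smul, hbj]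

end Pool.Agent.CMG.H11
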